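import Pool.Agent.LM97.C

/-!
# The bound for `λ(M^t(G))`: when it is attained, and how much smaller `λ` is for sparse graphs

Definitions used. `Myc G` is the Mycielski graph, `It G t` its `t`-th iterate (on the vertex type
`VT V t`) and `L21 G f` says that `f` is an `L(2,1)`-labelling (library file
`Results/MP_f0917b_co/Yes`). `lam G` is the least `k` such that `G` has an `L(2,1)`-labelling with all
labels at most `k`; `Diam2 G` says that any two different nonadjacent vertices have a common neighbour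
(helper files `LM97/C` and `LM97/B`).
-/

set_option autoImplicit false

namespace Pool.Agent.Results.MP_f0917b_co.MooreEquality

open Pool.Agent.LM97 Pool.Agent.Results.MP_f0917b_co.Yes

/-- Let `G` have order `n ≥ 1` and maximum degree `Δ`, and let `t ≥ 1`.

(1) (Q1) `λ(M^t(G)) ≤ (2^t - 1)(n + 1) + Δ²`.

(2) If `Δ ≥ 3`, or `Δ ≥ 1` and `n ≥ 10`, then equality holds if and only if `n = Δ² + 1` and `G` has
diameter at most two, i.e. if and only if `G` is a Moore graph of diameter two.

(3) If `n ≥ 2(Δ + 1)²` then the term `Δ²` is not needed: `λ(M^t(G)) ≤ (2^t - 1)(n + 1)`, and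
`λ(M(G)) = n + 1` exactly. -/
theorem result (V : Type) [Fintype V] [Nonempty V] (G : SimpleGraph V) [DecidableRel G.Adj]
    (t : ℕ) (ht : 1 ≤ t) :
    lam (It G t) ≤ (2 ^ t - 1) * (Fintype.card V + 1) + G.maxDegree ^ 2 ∧
    (1 ≤ G.maxDegree → (3 ≤ G.maxDegree ∨ 10 ≤ Fintype.card V) →
      (lam (It G t) = (2 ^ t - 1) * (Fintype.card V + 1) + G.maxDegree ^ 2 ↔
        Fintype.card V = G.maxDegree ^ 2 + 1 ∧ Diam2 G)) ∧
    (2 * (G.maxDegree + 1) ^ 2 ≤ Fintype.card V →
      lam (It G t) ≤ (2 ^ t - 1) * (Fintype.card V + 1) ∧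
        lam (Myc G) = Fintype.card V + 1) := by
  classical
  have dg := G.degree_le_maxDegree
  have hlt : G.maxDegree < Fintype.card V := G.maxDegree_lt_card_verts
  have h2t : 2 ≤ 2 ^ t := by
    calc 2 = 2 ^ 1 := rfl
      _ ≤ 2 ^ t := Nat.pow_le_pow_right (by norm_num) ht
  have hsub : (2 ^ t - 1) * (Fintype.card V + 1) =
      (2 ^ t - 2) * (Fintype.card V + 1) + (Fintype.card V + 1) := by
    rw [show 2 ^ t - 1 = 2 ^ t - 2 + 1 by omega, Nat.add_mul, one_mul]
  obtain ⟨f, hf1, hf2⟩ := Yes.result V G t ht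
  have hup : lam (It G t) ≤ (2 ^ t - 1) * (Fintype.card V + 1) + G.maxDegree ^ 2 :=
    Nat.sInf_le ⟨f, hf1, hf2⟩
  refine ⟨hup, fun h1 h2 => ⟨fun heq => ?_, fun ⟨hm, hd⟩ => ?_⟩, fun hs => ?_⟩
  · by_contra hne
    have hb := strict G dg h1 h2 hne hlt (fun h3 => by
      rcases (by omega : G.maxDegree = 1 ∨ G.maxDegree = 2) with k | k <;> rw [k] at h2 ⊢ <;> omega)
    have := (lam_chain ht hb).2
    rw [Nat.card_eq_fintype_card] at this
    omega
  · refine le_antisymm hup ?_
    have iso : ∀ v, ∃ w, G.Adj v w := by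
      intro v
      obtain ⟨u, hu⟩ : ∃ u, u ≠ v := by
        have : 1 < Fintype.card V := by omega
        obtain ⟨a, b, hab⟩ := Fintype.one_lt_card_iff.1 this
        by_cases h : a = v
        · exact ⟨b, fun k => hab (h.trans k.symm)⟩
        · exact ⟨a, h⟩
      by_cases a : G.Adj v u
      · exact ⟨u, a⟩
      · obtain ⟨w, hw, -⟩ := hd v u hu.symm a
        exact ⟨w, hw⟩
    obtain ⟨i1, i2⟩ := card_VT V t
    rw [Nat.card_eq_fintype_card (α := V)] at i2
    refine le_lam ⟨f, hf1, hf2⟩ fun g h3 k h4 => ?_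
    have h5 := diam2_le (diam2_It hd iso t).2.1 h3 h4
    have h6 : 2 ^ t * (Fintype.card V + 1) =
        (2 ^ t - 1) * (Fintype.card V + 1) + (Fintype.card V + 1) := by
      conv_lhs => rw [show 2 ^ t = 2 ^ t - 1 + 1 by omega, Nat.add_mul, one_mul]
    omega
  · have hb := sparse dg hs
    refine ⟨?_, le_antisymm (lam_le hb) (le_lam (hb.imp fun f k => ⟨L21_of_LL k.1, k.2⟩)
      fun f h1 k h2 => ?_)⟩
    · have := (lam_chain ht hb).2
      rw [Nat.card_eq_fintype_card] at this
      omega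
    · have := myc_le h1 h2
      rwa [Nat.card_eq_fintype_card] at this

end Pool.Agent.Results.MP_f0917b_co.MooreEquality
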